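import Pool.Agent.H71.SM.All3

/-!
# Anti-Vietoris-Rips metric thickenings of spheres above the scale `π / 4`

For every `n ≥ 1` and every `r > π / 4` the anti-Vietoris-Rips metric thickening of the
`n`-sphere at scale `r` is not contractible.
-/

namespace Pool.Agent.Results.MP_3aee56_gt.AllDimensions

open Pool.Agent.H73.Avr

/-- For `n ≥ 1` and `r > π / 4`, `AVR_m(S^n; r)` is not contractible. -/
theorem result :
    ∀ n : ℕ, 1 ≤ n → ∀ r : ℝ, Real.pi / 4 < r → ¬ ContractibleSpace (AVR (geo n) r) :=
  fun _ hn _ h => Pool.Agent.H71.SM.not_contractible_all_pi4 hn h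

end Pool.Agent.Results.MP_3aee56_gt.AllDimensions
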