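import Pool.Agent.H73.Avr.Main

/-!
# Anti-Vietoris-Rips metric thickenings of odd dimensional spheres

For every odd `n` and every `r > 0` the anti-Vietoris-Rips metric thickening of the `n`-sphere
at scale `r` is not contractible.
-/

namespace Pool.Agent.Results.MP_3aee56_gt.OddSpheres

open Pool.Agent.H73.Avr

/-- For odd `n` and every `r > 0`, `AVR_m(S^n; r)` is not contractible. -/
theorem result :
    ∀ n : ℕ, Odd n → ∀ r : ℝ, 0 < r → ¬ ContractibleSpace (AVR (geo n) r) :=
  fun _ hn _ hr => not_contractible hn hr

end Pool.Agent.Results.MP_3aee56_gt.OddSpheres
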